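import Mathlib

set_option autoImplicit false

open Polynomial Complex

namespace Pool.Agent.Lib.MP_172a45_an.H73

/-- The pointwise inequality. -/
theorem pointwise {a z : ℂ} (hz : ‖z‖ ≤ 1) (hne : z ≠ a) :
    1 ≤ 1 / ‖a - z‖ + (a * (1 / (a - z))).re := by
  have hd : a - z ≠ 0 := sub_ne_zero.2 (Ne.symm hne)
  have hr : 0 < ‖a - z‖ := norm_pos_iff.2 hd
  obtain ⟨r, hrdef⟩ : ∃ r, r = ‖a - z‖ := ⟨_, rfl⟩
  rw [← hrdef] at hr ⊢
  have hre : (a * (1 / (a - z))).re = (a.re * (a.re - z.re) + a.im * (a.im - z.im)) / r ^ 2 := by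
    rw [mul_one_div, Complex.div_re, Complex.normSq_eq_norm_sq, ← hrdef]
    simp only [sub_re, sub_im]
    ring
  have hr2 : r ^ 2 = (a.re - z.re) ^ 2 + (a.im - z.im) ^ 2 := by
    rw [hrdef, ← Complex.normSq_eq_norm_sq, Complex.normSq_apply]
    simp only [sub_re, sub_im]
    ring
  have ha2 : a.re ^ 2 + a.im ^ 2 = ‖a‖ ^ 2 := by
    rw [← Complex.normSq_eq_norm_sq, Complex.normSq_apply]
    ring
  have hz2 : z.re ^ 2 + z.im ^ 2 ≤ 1 := by
    have : z.re ^ 2 + z.im ^ 2 = ‖z‖ ^ 2 := by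
      rw [← Complex.normSq_eq_norm_sq, Complex.normSq_apply]
      ring
    rw [this]
    have := norm_nonneg z
    nlinarith
  have ha0 := norm_nonneg a
  rw [hre]
  have key : r ^ 2 ≤ r + (a.re * (a.re - z.re) + a.im * (a.im - z.im)) := by
    rcases le_total r (1 - ‖a‖) with h | h
    · -- Cauchy-Schwarz
      have hcs : -(‖a‖ * r) ≤ a.re * (a.re - z.re) + a.im * (a.im - z.im) := by
        have h1 : (a.re * (a.re - z.re) + a.im * (a.im - z.im)) ^ 2 ≤ (‖a‖ * r) ^ 2 := by
          rw [mul_pow, hr2, ← ha2]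
          nlinarith [sq_nonneg (a.re * (a.im - z.im) - a.im * (a.re - z.re))]
        have h2 := abs_le_of_sq_le_sq' h1 (by positivity)
        exact h2.1
      nlinarith
    · have h3 : r ≤ 1 + ‖a‖ := by
        rw [hrdef]
        calc ‖a - z‖ ≤ ‖a‖ + ‖z‖ := norm_sub_le _ _
          _ ≤ 1 + ‖a‖ := by linarith
      have h4 : (r - 1) ^ 2 ≤ ‖a‖ ^ 2 := by
        apply sq_le_sq'
        · linarith
        · linarith
      nlinarith
  have e : 1 / r + (a.re * (a.re - z.re) + a.im * (a.im - z.im)) / r ^ 2 =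
      (r + (a.re * (a.re - z.re) + a.im * (a.im - z.im))) / r ^ 2 := by
    field_simp
  rw [e, le_div_iff₀ (by positivity), one_mul]
  exact key

/-- Summed form of the pointwise inequality: for a multiset `s` of points of the closed disc. -/
theorem sum_ineq {a : ℂ} (s : Multiset ℂ) (hs : ∀ z ∈ s, ‖z‖ ≤ 1 ∧ z ≠ a) :
    (s.card : ℝ) - (a * (s.map fun z => 1 / (a - z)).sum).re ≤
      (s.map fun z => 1 / ‖a - z‖).sum := by
  induction s using Multiset.induction_on with
  | empty => simp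
  | cons z s ih =>
    have h1 := ih fun w hw => hs w (Multiset.mem_cons_of_mem hw)
    have h2 := pointwise (hs z (Multiset.mem_cons_self z s)).1 (hs z (Multiset.mem_cons_self z s)).2
    simp only [Multiset.card_cons, Multiset.map_cons, Multiset.sum_cons, mul_add, add_re]
    push_cast
    linarith

/-- Zeros of the derivative lie in the closed disc. -/
theorem critical_norm_le {P : ℂ[X]} (hn : 2 ≤ P.natDegree) (hz : ∀ z : ℂ, P.IsRoot z → ‖z‖ ≤ 1)
    {ζ : ℂ} (hζ : ζ ∈ P.derivative.roots) : ‖ζ‖ ≤ 1 := by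
  have hdeg : 0 < P.degree := by
    rw [← natDegree_pos_iff_degree_pos]
    omega
  have hP0 : P ≠ 0 := by
    rintro rfl
    simp at hn
  have hmem : ζ ∈ P.derivative.rootSet ℂ := by
    rw [mem_rootSet]
    refine ⟨(mem_roots'.1 hζ).1, ?_⟩
    simpa using (mem_roots'.1 hζ).2
  have h1 := rootSet_derivative_subset_convexHull_rootSet hdeg hmem
  have h2 : P.rootSet ℂ ⊆ Metric.closedBall (0 : ℂ) 1 := by
    intro z hz'
    rw [mem_rootSet] at hz'
    rw [mem_closedBall_zero_iff]
    exact hz z (by simpa using hz'.2)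
  have h3 := convexHull_min h2 (convex_closedBall (0 : ℂ) 1) h1
  simpa using h3

theorem card_critical {P : ℂ[X]} : P.derivative.roots.card = P.natDegree - 1 := by
  rw [← (IsAlgClosed.splits P.derivative).natDegree_eq_card_roots, natDegree_derivative]

end Pool.Agent.Lib.MP_172a45_an.H73
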